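import Pool.Agent.helper31.GPR.Spec

set_option autoImplicit false

namespace Pool.Agent.GPR

open Pool.Agent.helper25.QST

theorem SS_add {V : Type} [AddCommGroup V] [Module (ZMod 2) V] (x : V) : x + x = 0 := by
  have h : (2 : ZMod 2) • x = 0 := by
    have : (2 : ZMod 2) = 0 := by decide
    rw [this, zero_smul]
  rwa [two_smul] at h

theorem SS_add3 {V : Type} [AddCommGroup V] [Module (ZMod 2) V] (x y : V) : x + (x + y) = y := by
  rw [← add_assoc, SS_add, zero_add]

theorem SS (hSSC : SSC_stmt) : SS_stmt := by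
  intro V _ _ _ V1 T d c F B hT hd hc hTV hF hB hKK hne
  classical
  haveI : Fintype V := Fintype.ofFinite V
  -- the finite sets
  set Ff : Finset V := F.toFinset with hFf
  have hFm : ∀ z, z ∈ Ff ↔ z ∈ F := fun z => Set.mem_toFinset
  have hFc : F.ncard = Ff.card := Set.ncard_eq_toFinset_card' F
  set Tf : Finset V := Finset.univ.filter (fun x => x ∈ T) with hTf
  set Vf : Finset V := Finset.univ.filter (fun x => x ∈ V1) with hVf
  have hTm : ∀ z, z ∈ Tf ↔ z ∈ T := fun z => by rw [hTf, Finset.mem_filter]; simp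
  have hVm : ∀ z, z ∈ Vf ↔ z ∈ V1 := fun z => by rw [hVf, Finset.mem_filter]; simp
  have hTc : Tf.card = 2 ^ d := by
    have h1 : Nat.card T = 2 ^ d := by
      rw [Module.natCard_eq_pow_finrank (K := ZMod 2), hT]
      simp
    rw [← h1, Nat.card_eq_fintype_card, Fintype.card_subtype]
  have hVc : Nat.card V1 = Vf.card := by
    rw [Nat.card_eq_fintype_card, Fintype.card_subtype]
  set F' : Finset V := Ff.filter (fun z => ∃ z' ∈ F, z' ≠ z ∧ z' + z ∈ T ∧ B z z' = 0) with hF'
  set N : Finset V := Ff.filter (fun z => ¬ ∃ z' ∈ F, z' ≠ z ∧ z' + z ∈ T ∧ B z z' = 0) with hN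
  have hsplit : F'.card + N.card = Ff.card := Finset.card_filter_add_card_filter_not _
  -- every coset
  have hcos : ∀ x0 : V, (N.filter fun z => z + x0 ∈ T).card ≤ KK d c := by
    intro x0
    have h1 := hSSC V V1 T d c x0 (↑(N.filter fun z => z + x0 ∈ T)) B hT hc (by
      intro z hz
      exact (Finset.mem_filter.1 (Finset.mem_coe.1 hz)).2) (by
      intro z hz
      have h2 := (Finset.mem_filter.1 (Finset.mem_coe.1 hz)).1
      exact hB z ((hFm z).1 (Finset.mem_filter.1 h2).1)) (by
      intro z hz z' hz' hzz hBz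
      have h2 := Finset.mem_filter.1 (Finset.mem_coe.1 hz)
      have h3 := Finset.mem_filter.1 (Finset.mem_coe.1 hz')
      have h4 := Finset.mem_filter.1 h2.1
      have h5 := Finset.mem_filter.1 h3.1
      apply h4.2
      refine ⟨z', (hFm z').1 h5.1, fun h => hzz h.symm, ?_, hBz⟩
      have h6 : z' + z = (z' + x0) + (z + x0) := by
        have : (z' + x0) + (z + x0) = z' + z + (x0 + x0) := by abel
        rw [this, SS_add, add_zero]
      rw [h6]
      exact T.add_mem h3.2 h2.2)
    rwa [Set.ncard_coe_finset] at h1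
  have hdc : N.card * 2 ^ d ≤ KK d c * Vf.card := by
    have h1 : ∑ z ∈ N, Tf.card ≤ ∑ z ∈ N, (Vf.filter fun x0 => z + x0 ∈ T).card := by
      refine Finset.sum_le_sum fun z hz => ?_
      have hzV : z ∈ V1 := hF z ((hFm z).1 (Finset.mem_filter.1 hz).1)
      apply Finset.card_le_card_of_injOn (fun t => z + t)
      · intro t ht
        rw [Finset.mem_coe, hTm] at ht
        rw [Finset.mem_coe, Finset.mem_filter, hVm]
        refine ⟨V1.add_mem hzV (hTV ht), ?_⟩
        simp only
        rw [SS_add3]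
        exact ht
      · intro t _ t' _ h
        exact add_left_cancel h
    have h2 : ∑ z ∈ N, (Vf.filter fun x0 => z + x0 ∈ T).card = ∑ x0 ∈ Vf, (N.filter fun z => z + x0 ∈ T).card := by
      simp only [Finset.card_filter]
      exact Finset.sum_comm
    have h3 : ∑ x0 ∈ Vf, (N.filter fun z => z + x0 ∈ T).card ≤ ∑ _x0 ∈ Vf, KK d c :=
      Finset.sum_le_sum fun x0 _ => hcos x0
    rw [Finset.sum_const, smul_eq_mul] at h1
    rw [Finset.sum_const, smul_eq_mul] at h3
    rw [hTc, h2] at h1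
    calc N.card * 2 ^ d ≤ _ := h1
      _ ≤ Vf.card * KK d c := h3
      _ = KK d c * Vf.card := mul_comm _ _
  have hN2 : 2 * N.card ≤ Ff.card := by
    rw [hVc, hFc] at hKK
    have h1 := hdc.trans hKK
    have h2 : (2 : ℕ) ^ d = 2 * 2 ^ (d - 1) := by
      rw [← pow_succ']
      congr 1
      omega
    rw [h2] at h1
    have h3 : (2 * N.card) * 2 ^ (d - 1) ≤ Ff.card * 2 ^ (d - 1) := by
      refine le_trans (le_of_eq ?_) h1
      ring
    exact Nat.le_of_mul_le_mul_right h3 (by positivity)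
  have hF2 : Ff.card ≤ 2 * F'.card := by omega
  have hpos : 0 < Ff.card := by
    rw [← hFc, Set.ncard_pos (Set.toFinite F)]
    exact hne
  by_contra hcon
  push Not at hcon
  -- pigeonhole
  set A : V → Finset V := fun g => Ff.filter (fun z => z + g ∈ F ∧ B z g = 0) with hA
  have hAc : ∀ g, {z | z ∈ F ∧ z + g ∈ F ∧ B z g = 0}.ncard = (A g).card := by
    intro g
    rw [← Set.ncard_coe_finset]
    congr 1
    ext z
    rw [hA, Finset.coe_filter]
    simp only [Set.mem_ofPred_eq, hFm]
  have hcov : F' ⊆ (Tf.erase 0).biUnion A := by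
    intro z hz
    obtain ⟨hz1, z', hz', hne', hT', hB'⟩ := Finset.mem_filter.1 hz
    rw [Finset.mem_biUnion]
    refine ⟨z + z', ?_, ?_⟩
    · rw [Finset.mem_erase, hTm, add_comm]
      refine ⟨fun h => hne' ?_, hT'⟩
      have h2 : z' + (z' + z) = z' + 0 := by rw [h]
      rw [SS_add3, add_zero] at h2
      exact h2.symm
    · rw [hA, Finset.mem_filter]
      refine ⟨hz1, ?_, ?_⟩
      · rw [SS_add3]
        exact hz'
      · rw [map_add, hB z ((hFm z).1 hz1), hB', add_zero]
  have h1 : F'.card ≤ ∑ g ∈ Tf.erase 0, (A g).card :=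
    (Finset.card_le_card hcov).trans Finset.card_biUnion_le
  have h2 : 2 ^ (d + 1) * F'.card ≤ ∑ g ∈ Tf.erase 0, Ff.card := by
    refine (Nat.mul_le_mul_left _ h1).trans ?_
    rw [Finset.mul_sum]
    refine Finset.sum_le_sum fun g hg => ?_
    rw [Finset.mem_erase, hTm] at hg
    have h3 := hcon g hg.2 hg.1
    rw [hAc, hFc] at h3
    exact h3.le
  rw [Finset.sum_const, smul_eq_mul, Finset.card_erase_of_mem ((hTm 0).2 T.zero_mem), hTc] at h2
  have h4 : 2 ^ d * Ff.card ≤ 2 ^ (d + 1) * F'.card := by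
    rw [pow_succ, mul_assoc]
    exact Nat.mul_le_mul_left _ hF2
  have h5 : 2 ^ d * Ff.card ≤ (2 ^ d - 1) * Ff.card := h4.trans h2
  have h6 := Nat.le_of_mul_le_mul_right h5 hpos
  have h7 : 0 < 2 ^ d := by positivity
  omega

end Pool.Agent.GPR
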